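import Pool.Agent.J4.H5.VJ.Defs4

/-!
# Project VJ, piece NSX: minors, local equations at a point
-/

set_option autoImplicit false
set_option linter.all false

open MvPolynomial NumberField IsDedekindDomain Module

namespace Pool.Agent.J4.H59.NSX

open Pool.Agent.J4.H5.VJ

/-- a matrix with independent rows has a nonzero minor -/
theorem exists_minor {Ω U : Type} [Field Ω] {s : ℕ} (M : Fin s → U → Ω)
    (hM : ∀ a : Fin s → Ω, (∀ l, ∑ i, a i * M i l = 0) → a = 0) :
    ∃ β : Fin s → U, (Matrix.of fun i j => M i (β j)).det ≠ 0 := by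
  classical
  let v : U → (Fin s → Ω) := fun l i => M i l
  have hspan : Submodule.span Ω (Set.range v) = ⊤ := by
    by_contra hne
    obtain ⟨φ, hφ, hφ2⟩ := Submodule.exists_dual_map_eq_bot_of_lt_top (lt_top_iff_ne_top.2 hne)
      inferInstance
    have h1 : ∀ l, φ (v l) = 0 := by
      intro l
      have h2 : φ (v l) ∈ Submodule.map φ (Submodule.span Ω (Set.range v)) :=
        Submodule.mem_map_of_mem (Submodule.subset_span ⟨l, rfl⟩)
      rw [hφ2] at h2
      exact (Submodule.mem_bot Ω).1 h2
    have h3 : ∀ w : Fin s → Ω, φ w = ∑ i, φ (Pi.single i 1) * w i := by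
      intro w
      conv_lhs => rw [pi_eq_sum_univ' w]
      rw [map_sum]
      refine Finset.sum_congr rfl fun i _ => ?_
      rw [map_smul, smul_eq_mul, mul_comm]
    have h4 := hM (fun i => φ (Pi.single i 1)) (fun l => by rw [← h3 (v l)]; exact h1 l)
    apply hφ
    ext w
    have := congrFun h4 w
    simpa using this
  obtain ⟨κ, a, ha, hsp, hli⟩ := exists_linearIndependent' Ω v
  rw [hspan] at hsp
  let B : Basis κ Ω (Fin s → Ω) := Basis.mk hli (by rw [hsp])
  have hfin : Finite κ := Module.Finite.finite_basis B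
  have : Fintype κ := Fintype.ofFinite κ
  have hcard : Fintype.card κ = s := by
    have := finrank_eq_card_basis B
    rw [finrank_fin_fun] at this
    exact this.symm
  let e : Fin s ≃ κ := (Fintype.equivFinOfCardEq hcard).symm
  refine ⟨fun j => a (e j), ?_⟩
  have h1 : LinearIndependent Ω (Matrix.of fun i j => M i (a (e j))).col := by
    exact hli.comp e e.injective
  rw [Matrix.linearIndependent_cols_iff_isUnit] at h1
  exact ((Matrix.isUnit_iff_isUnit_det _).1 h1).ne_zero

/-- the gradients of all equations are combinations of the local ones -/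
theorem grad_comb {C Ω : Type} [Field C] [Field Ω] [Algebra C Ω] {n t s : ℕ}
    (F : Fin t → MvPolynomial (Fin (n + 1)) C) (z : Fin (n + 1) → Ω) (α : Fin s → Fin t)
    (hz : ∀ i, aeval z (F i) = 0) (a : MvPolynomial (Fin (n + 1)) C) (ha : aeval z a ≠ 0)
    (h : ∀ i, a * F i ∈ Ideal.span (Set.range fun i => F (α i))) (i : Fin t) :
    ∃ c : Fin s → Ω, ∀ l, aeval z (pderiv l (F i)) =
      ∑ j, c j * aeval z (pderiv l (F (α j))) := by
  obtain ⟨q, hq⟩ := Ideal.mem_span_range_iff_exists_fun.1 (h i)
  refine ⟨fun j => aeval z (q j) / aeval z a, fun l => ?_⟩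
  have h1 := congrArg (fun p => aeval z (pderiv l p)) hq
  simp only [map_sum, pderiv_mul, map_add, map_mul, hz, mul_zero, zero_add] at h1
  have h2 : aeval z (pderiv l (F i)) = (∑ j, aeval z (q j) * aeval z (pderiv l (F (α j)))) /
      aeval z a := by
    rw [eq_div_iff ha, h1]
    ring
  rw [h2, Finset.sum_div]
  exact Finset.sum_congr rfl fun j _ => by ring

/-- the minors -/
theorem det_comb {C Ω : Type} [Field C] [Field Ω] [Algebra C Ω] {n t s : ℕ}
    (F : Fin t → MvPolynomial (Fin (n + 1)) C) (z : Fin (n + 1) → Ω) (α : Fin s → Fin t)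
    (hz : ∀ i, aeval z (F i) = 0) (a : MvPolynomial (Fin (n + 1)) C) (ha : aeval z a ≠ 0)
    (h : ∀ i, a * F i ∈ Ideal.span (Set.range fun i => F (α i))) (α0 : Fin s → Fin t) :
    ∃ c : Ω, ∀ β : Fin s → Fin (n + 1), gaussRow F α0 z β = c * gaussRow F α z β := by
  choose c hc using fun i => grad_comb F z α hz a ha h (α0 i)
  refine ⟨(Matrix.of fun i j => c i j).det, fun β => ?_⟩
  unfold gaussRow
  rw [← Matrix.det_mul]
  congr 1
  ext i j
  rw [Matrix.mul_apply]
  simp only [Matrix.of_apply]
  exact hc i (β j)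

/-- the facts at a point of `X` -/
theorem point {k : Type} [Field k] {n t u s : ℕ}
    {f : Fin t → MvPolynomial (Fin (n + 1)) k} {G : Fin u → MvPolynomial (Fin (n + 1)) k}
    (hT : IsTransV s f G) (L : Type) [Field L] [Algebra k L] (x : Fin (n + 1) → L) (hx : x ≠ 0)
    (hf : ∀ i, aeval x (f i) = 0) :
    (∃ (α : Fin s → Fin t) (β : Fin s → Fin (n + 1)),
      (∏ j, x (β j)) * gaussRow f α x β ≠ 0) ∧
    ∀ (α α0 : Fin s → Fin t) (β b : Fin s → Fin (n + 1)),
      gaussRow f α x β * gaussRow f α0 x b = gaussRow f α x b * gaussRow f α0 x β := by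
  classical
  let Ω := AlgebraicClosure L
  let ψ : AlgebraicClosure k →ₐ[k] Ω := IsAlgClosed.lift
  letI : Algebra (AlgebraicClosure k) Ω := ψ.toRingHom.toAlgebra
  haveI : IsScalarTower k (AlgebraicClosure k) Ω :=
    IsScalarTower.of_algebraMap_eq fun r => (ψ.commutes r).symm
  set z : Fin (n + 1) → Ω := fun l => algebraMap L Ω (x l) with hzdef
  have hinj : Function.Injective (algebraMap L Ω) := (algebraMap L Ω).injective
  have hae : ∀ p : MvPolynomial (Fin (n + 1)) k,
      aeval z (p.map (algebraMap k (AlgebraicClosure k))) = algebraMap L Ω (aeval x p) := by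
    intro p
    rw [aeval_map_algebraMap]
    exact aeval_algebraMap_apply (B := Ω) x p
  have hz0 : z ≠ 0 := by
    intro h0
    apply hx
    funext l
    have := congrFun h0 l
    simpa [hzdef] using this
  have hzf : ∀ i, aeval z ((f i).map (algebraMap k (AlgebraicClosure k))) = 0 := by
    intro i
    rw [hae, hf i, map_zero]
  have hrow : ∀ (α : Fin s → Fin t) (β : Fin s → Fin (n + 1)),
      gaussRow (fun i => (f i).map (algebraMap k (AlgebraicClosure k))) α z β =
        algebraMap L Ω (gaussRow f α x β) := by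
    intro α β
    unfold gaussRow
    rw [RingHom.map_det]
    congr 1
    ext i j
    simp only [Matrix.of_apply, RingHom.mapMatrix_apply, Matrix.map_apply]
    rw [pderiv_map, hae]
  obtain ⟨-, q, v, d, H, -, hH⟩ := hT
  obtain ⟨α, ι, ⟨a, ha, hloc, -, -, -⟩, hind⟩ := hH Ω z hz0 hzf
  have hcomb := det_comb (fun i => (f i).map (algebraMap k (AlgebraicClosure k))) z α hzf a ha hloc
  refine ⟨?_, ?_⟩
  · obtain ⟨β, hβ⟩ := exists_minor (U := {l : Fin (n + 1) // x l ≠ 0})
      (fun i l => aeval z (pderiv l.1 ((f (α i)).map (algebraMap k (AlgebraicClosure k))))) (by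
        intro c hc
        refine (hind c 0 (fun l => -∑ i, c i * aeval z (pderiv l
          ((f (α i)).map (algebraMap k (AlgebraicClosure k))))) (fun j hj => absurd rfl hj)
          (fun l hl => ?_) (fun l => by simp)).1
        by_contra hzl
        apply hl
        have hxl : x l ≠ 0 := fun h0 => hzl (by rw [hzdef]; simp [h0])
        rw [hc ⟨l, hxl⟩, neg_zero])
    refine ⟨α, fun j => (β j).1, mul_ne_zero (Finset.prod_ne_zero_iff.2 fun j _ => (β j).2) ?_⟩
    intro h0
    apply hβ
    have := hrow α (fun j => (β j).1)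
    rw [h0, map_zero] at this
    exact this
  · intro α1 α0 β b
    obtain ⟨c1, hc1⟩ := hcomb α1
    obtain ⟨c0, hc0⟩ := hcomb α0
    apply hinj
    rw [map_mul, map_mul, ← hrow, ← hrow, ← hrow, ← hrow, hc1, hc1, hc0, hc0]
    ring

end Pool.Agent.J4.H59.NSX
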